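import Mathlib.MeasureTheory.Integral.IntervalIntegral.DerivIntegrable
import Mathlib.Analysis.Calculus.Monotone
import Mathlib.MeasureTheory.Measure.Lebesgue.Basic

/-!
# Functions without negative jumps and with nonnegative derivative almost everywhere

If `f + C x` is monotone, and if `f` has small negative slopes at arbitrarily small scales at
almost every point, then `f` is monotone. An exceptional set of measure `m` costs `C m`. The
functions are defined on the real numbers, or on the rational numbers only.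
-/

set_option autoImplicit false

namespace Pool.RA

open MeasureTheory Set Filter Topology

/-- The derivative of a monotone function is at least `C` outside a set of measure `m`. -/
theorem mono_core {g : ℝ → ℝ} {C a b m : ℝ} (hab : a ≤ b) (hC : 0 ≤ C) (hm : 0 ≤ m)
    (hg : MonotoneOn g (Icc a b)) (N : Set ℝ) (hN : volume N ≤ ENNReal.ofReal m)
    (h : ∀ x : ℝ, a < x → x < b → x ∉ N → ∃ K : ℝ, ∀ eps : ℝ, 0 < eps → ∀ del : ℝ, 0 < del →
      ∃ s t : ℝ, a ≤ s ∧ s < t ∧ t ≤ b ∧ x - del < s ∧ t < x + del ∧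
        |s - x| + |t - x| ≤ K * (t - s) ∧ (C - eps) * (t - s) ≤ g t - g s) :
    C * (b - a) - C * m ≤ g b - g a := by
  have hg' : MonotoneOn g (uIcc a b) := by rwa [uIcc_of_le hab]
  have h1 := hg'.intervalIntegral_deriv_mem_uIcc
  have hgab : g a ≤ g b := hg ⟨le_rfl, hab⟩ ⟨hab, le_rfl⟩ hab
  rw [uIcc_of_le (by linarith)] at h1
  refine le_trans ?_ h1.2
  have hint := hg'.intervalIntegrable_deriv
  -- almost everywhere differentiability
  have hd : ∀ᵐ x : ℝ, x ∈ Ioo a b → DifferentiableAt ℝ g x := by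
    have h2 := (hg.mono Ioo_subset_Icc_self).ae_differentiableWithinAt measurableSet_Ioo
    rw [ae_restrict_iff' measurableSet_Ioo] at h2
    filter_upwards [h2] with x hx hx'
    exact (hx hx').differentiableAt (isOpen_Ioo.mem_nhds hx')
  have hderiv : ∀ x ∈ Ioo a b, DifferentiableAt ℝ g x → x ∉ N → C ≤ deriv g x := by
    intro x hx hdx hxN
    obtain ⟨K, hK⟩ := h x hx.1 hx.2 hxN
    refine le_of_forall_pos_le_add fun eps heps => ?_
    have hd1 := hdx.hasDerivAt
    rw [hasDerivAt_iff_isLittleO] at hd1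
    obtain ⟨eta, heta, hetaK⟩ : ∃ eta : ℝ, 0 < eta ∧ eta * |K| ≤ eps / 2 := by
      refine ⟨eps / 2 / (|K| + 1), by positivity, ?_⟩
      rw [div_mul_eq_mul_div, div_le_iff₀ (by positivity)]
      nlinarith [abs_nonneg K]
    have hd2 := hd1.def heta
    rw [Metric.eventually_nhds_iff] at hd2
    obtain ⟨del, hdel, hd3⟩ := hd2
    obtain ⟨s, t, e1, e2, e3, e4, e5, e6, e7⟩ := hK (eps / 2) (by positivity) del hdel
    have hs : |s - x| < del := by
      rw [abs_lt]
      constructor <;> linarith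
    have ht : |t - x| < del := by
      rw [abs_lt]
      constructor <;> linarith
    have q1 := hd3 (y := s) (by rwa [Real.dist_eq])
    have q2 := hd3 (y := t) (by rwa [Real.dist_eq])
    simp only [Real.norm_eq_abs, smul_eq_mul] at q1 q2
    rw [abs_le] at q1 q2
    have q3 : eta * (|s - x| + |t - x|) ≤ eps / 2 * (t - s) := by
      calc eta * (|s - x| + |t - x|) ≤ eta * (K * (t - s)) :=
            mul_le_mul_of_nonneg_left e6 heta.le
        _ = eta * K * (t - s) := by ring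
        _ ≤ eps / 2 * (t - s) := by
            refine mul_le_mul_of_nonneg_right ?_ (by linarith)
            exact (mul_le_mul_of_nonneg_left (le_abs_self K) heta.le).trans hetaK
    have q4 : (C - eps / 2) * (t - s) ≤ (deriv g x + eps / 2) * (t - s) := by
      nlinarith [q1.1, q1.2, q2.1, q2.2]
    have q5 : C - eps / 2 ≤ deriv g x + eps / 2 := le_of_mul_le_mul_right q4 (by linarith)
    linarith
  have hnn : ∀ x ∈ Ioo a b, 0 ≤ deriv g x := by
    intro x hx
    rw [← derivWithin_of_mem_nhds (Icc_mem_nhds hx.1 hx.2)]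
    exact hg.derivWithin_nonneg
  -- the exceptional set
  obtain ⟨N', hN'⟩ : ∃ N' : Set ℝ, N' = toMeasurable volume N := ⟨_, rfl⟩
  have hNs : N ⊆ N' := by
    rw [hN']
    exact subset_toMeasurable _ _
  have hNm : MeasurableSet N' := by
    rw [hN']
    exact measurableSet_toMeasurable _ _
  have hNv : volume N' ≤ ENNReal.ofReal m := by
    rw [hN', measure_toMeasurable]
    exact hN
  have hle : ∀ᵐ x : ℝ, x ∈ Ioo a b → C - N'.indicator (fun _ => C) x ≤ deriv g x := by
    filter_upwards [hd] with x hx hx'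
    by_cases hxN : x ∈ N'
    · rw [Set.indicator_of_mem hxN, sub_self]
      exact hnn x hx'
    · rw [Set.indicator_of_notMem hxN, sub_zero]
      exact hderiv x hx' (hx hx') fun h' => hxN (hNs h')
  have hI : IntervalIntegrable (fun x => C - N'.indicator (fun _ => C) x) volume a b := by
    refine intervalIntegrable_const.sub ?_
    rw [intervalIntegrable_iff_integrableOn_Ioc_of_le hab]
    refine Integrable.indicator ?_ hNm
    exact integrableOn_const (by simp)
  have key : ∫ x in a..b, (C - N'.indicator (fun _ => C) x) ≤ ∫ x in a..b, deriv g x := by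
    refine intervalIntegral.integral_mono_ae_restrict hab hI hint ?_
    rw [Filter.EventuallyLE, ← restrict_Ioo_eq_restrict_Icc,
      MeasureTheory.ae_restrict_iff' measurableSet_Ioo]
    exact hle
  refine le_trans ?_ key
  rw [intervalIntegral.integral_sub intervalIntegrable_const (by
    rw [intervalIntegrable_iff_integrableOn_Ioc_of_le hab]
    refine Integrable.indicator ?_ hNm
    exact integrableOn_const (by simp))]
  rw [intervalIntegral.integral_const, smul_eq_mul, intervalIntegral.integral_of_le hab,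
    integral_indicator hNm, setIntegral_const, smul_eq_mul]
  have hfin : (volume.restrict (Ioc a b)).real N' ≤ m := by
    rw [Measure.real]
    refine ENNReal.toReal_le_of_le_ofReal hm ?_
    exact (Measure.restrict_apply_le _ _).trans hNv
  nlinarith

/-- **The function is monotone up to the exceptional set.** -/
theorem theta_real {f : ℝ → ℝ} {C a b m : ℝ} (hab : a ≤ b) (hC : 0 ≤ C) (hm : 0 ≤ m)
    (hX : ∀ x y : ℝ, a ≤ x → x ≤ y → y ≤ b → f x - C * (y - x) ≤ f y)
    (N : Set ℝ) (hN : volume N ≤ ENNReal.ofReal m)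
    (h : ∀ x : ℝ, a < x → x < b → x ∉ N → ∃ K : ℝ, ∀ eps : ℝ, 0 < eps → ∀ del : ℝ, 0 < del →
      ∃ s t : ℝ, a ≤ s ∧ s < t ∧ t ≤ b ∧ x - del < s ∧ t < x + del ∧
        |s - x| + |t - x| ≤ K * (t - s) ∧ -eps * (t - s) ≤ f t - f s) :
    f a - C * m ≤ f b := by
  have key := mono_core (g := fun x => f x + C * x) hab hC hm
    (fun x hx y hy hxy => by
      have := hX x y hx.1 hxy hy.2
      linarith) N hN (fun x h1 h2 h3 => by
      obtain ⟨K, hK⟩ := h x h1 h2 h3
      refine ⟨K, fun eps he del hd => ?_⟩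
      obtain ⟨s, t, e1, e2, e3, e4, e5, e6, e7⟩ := hK eps he del hd
      refine ⟨s, t, e1, e2, e3, e4, e5, e6, ?_⟩
      linarith)
  linarith

/-- The same for all points but a null set. -/
theorem theta_ae {f : ℝ → ℝ} {C a b : ℝ} (hab : a ≤ b) (hC : 0 ≤ C)
    (hX : ∀ x y : ℝ, a ≤ x → x ≤ y → y ≤ b → f x - C * (y - x) ≤ f y)
    (h : ∀ᵐ x : ℝ, a < x → x < b → ∃ K : ℝ, ∀ eps : ℝ, 0 < eps → ∀ del : ℝ, 0 < del →
      ∃ s t : ℝ, a ≤ s ∧ s < t ∧ t ≤ b ∧ x - del < s ∧ t < x + del ∧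
        |s - x| + |t - x| ≤ K * (t - s) ∧ -eps * (t - s) ≤ f t - f s) :
    f a ≤ f b := by
  have key := theta_real (m := 0) hab hC le_rfl hX
    {x | ¬ (a < x → x < b → ∃ K : ℝ, ∀ eps : ℝ, 0 < eps → ∀ del : ℝ, 0 < del →
      ∃ s t : ℝ, a ≤ s ∧ s < t ∧ t ≤ b ∧ x - del < s ∧ t < x + del ∧
        |s - x| + |t - x| ≤ K * (t - s) ∧ -eps * (t - s) ≤ f t - f s)}
    (by rw [ENNReal.ofReal_zero, nonpos_iff_eq_zero]; exact ae_iff.1 h)
    (fun x h1 h2 h3 => by
      by_contra hcon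
      exact h3 fun h' => hcon (h' h1 h2))
  linarith

/-- One-sided or two-sided slopes at the point itself. -/
theorem theta_pt {f : ℝ → ℝ} {C a b m : ℝ} (hab : a ≤ b) (hC : 0 ≤ C) (hm : 0 ≤ m)
    (hX : ∀ x y : ℝ, a ≤ x → x ≤ y → y ≤ b → f x - C * (y - x) ≤ f y)
    (N : Set ℝ) (hN : volume N ≤ ENNReal.ofReal m)
    (h : ∀ x : ℝ, a < x → x < b → x ∉ N → ∀ eps : ℝ, 0 < eps → ∀ del : ℝ, 0 < del →
      ∃ y : ℝ, a ≤ y ∧ y ≤ b ∧ y ≠ x ∧ |y - x| < del ∧ -eps ≤ (f y - f x) / (y - x)) :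
    f a - C * m ≤ f b := by
  refine theta_real hab hC hm hX N hN fun x h1 h2 h3 => ⟨1, fun eps he del hd => ?_⟩
  obtain ⟨y, e1, e2, e3, e4, e5⟩ := h x h1 h2 h3 eps he del hd
  rw [abs_lt] at e4
  rcases lt_or_gt_of_ne e3 with h4 | h4
  · refine ⟨y, x, e1, h4, h2.le, by linarith, by linarith, ?_, ?_⟩
    · rw [abs_of_neg (by linarith : y - x < 0), sub_self, abs_zero]
      linarith
    · have e6 : (f y - f x) / (y - x) = (f x - f y) / (x - y) := by
        rw [← neg_sub (f x) (f y), ← neg_sub x y, neg_div_neg_eq]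
      rw [e6, le_div_iff₀ (by linarith)] at e5
      linarith
  · refine ⟨x, y, h1.le, h4, e2, by linarith, by linarith, ?_, ?_⟩
    · rw [abs_of_pos (by linarith : 0 < y - x), sub_self, abs_zero]
      linarith
    · rw [le_div_iff₀ (by linarith)] at e5
      linarith

/-- **The rational form.** -/
theorem theta_rat {f : ℚ → ℝ} {C m : ℝ} {a b : ℚ} (hab : a ≤ b) (hC : 0 ≤ C) (hm : 0 ≤ m)
    (hX : ∀ x y : ℚ, a ≤ x → x ≤ y → y ≤ b → f x - C * (y - x) ≤ f y)
    (N : Set ℝ) (hN : volume N ≤ ENNReal.ofReal m)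
    (h : ∀ x : ℝ, (a : ℝ) < x → x < b → x ∉ N → ∃ K : ℝ, ∀ eps : ℝ, 0 < eps →
      ∀ del : ℝ, 0 < del → ∃ s t : ℚ, a ≤ s ∧ s < t ∧ t ≤ b ∧ x - del < s ∧ (t : ℝ) < x + del ∧
        |s - x| + |t - x| ≤ K * (t - s) ∧ -eps * (t - s) ≤ f t - f s) :
    f a - C * m ≤ f b := by
  -- extension to the real numbers
  obtain ⟨g, hg⟩ : ∃ g : ℝ → ℝ, g = fun x =>
    sSup {v : ℝ | ∃ q : ℚ, a ≤ q ∧ q ≤ b ∧ (q : ℝ) ≤ x ∧ v = f q + C * q} := ⟨_, rfl⟩
  have hmq : ∀ x y : ℚ, a ≤ x → x ≤ y → y ≤ b → f x + C * x ≤ f y + C * y := by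
    intro x y h1 h2 h3
    have := hX x y h1 h2 h3
    linarith
  have hbdd : ∀ x : ℝ, BddAbove {v : ℝ | ∃ q : ℚ, a ≤ q ∧ q ≤ b ∧ (q : ℝ) ≤ x ∧
      v = f q + C * q} := by
    intro x
    refine ⟨f b + C * b, ?_⟩
    rintro v ⟨q, h1, h2, _, rfl⟩
    exact hmq q b h1 h2 le_rfl
  have hne : ∀ x : ℝ, (a : ℝ) ≤ x → {v : ℝ | ∃ q : ℚ, a ≤ q ∧ q ≤ b ∧ (q : ℝ) ≤ x ∧
      v = f q + C * q}.Nonempty := fun x hx => ⟨_, a, le_rfl, hab, hx, rfl⟩
  have hgq : ∀ q : ℚ, a ≤ q → q ≤ b → g q = f q + C * q := by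
    intro q h1 h2
    rw [hg]
    refine le_antisymm (csSup_le (hne q (by exact_mod_cast h1)) ?_)
      (le_csSup (hbdd q) ⟨q, h1, h2, le_rfl, rfl⟩)
    rintro v ⟨q', h3, h4, h5, rfl⟩
    exact hmq q' q h3 (by exact_mod_cast h5) h2
  have hgm : MonotoneOn g (Icc (a : ℝ) b) := by
    intro x hx y _ hxy
    rw [hg]
    refine csSup_le_csSup (hbdd y) (hne x hx.1) ?_
    rintro v ⟨q, h1, h2, h3, rfl⟩
    exact ⟨q, h1, h2, h3.trans hxy, rfl⟩
  have key := mono_core (g := g) (a := (a : ℝ)) (b := (b : ℝ)) (by exact_mod_cast hab) hC hm hgm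
    N hN (fun x h1 h2 h3 => by
      obtain ⟨K, hK⟩ := h x h1 h2 h3
      refine ⟨K, fun eps he del hd => ?_⟩
      obtain ⟨s, t, e1, e2, e3, e4, e5, e6, e7⟩ := hK eps he del hd
      refine ⟨s, t, by exact_mod_cast e1, by exact_mod_cast e2, by exact_mod_cast e3, e4, e5, e6,
        ?_⟩
      rw [hgq s e1 (e2.le.trans e3), hgq t (e1.trans e2.le) e3]
      linarith)
  rw [hgq a le_rfl hab, hgq b hab le_rfl] at key
  linarith

end Pool.RA
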